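import Pool.Agent.helper22.WC.Spec

/-!
# Project wc (MP_baa4d7_al), row SKA: commutators in cosets
-/

set_option autoImplicit false

namespace Pool.Agent.WC

open Pool.Agent.helper58.DC Pool.Agent.DI Pool.Agent.DR

/-- The number of pairs, written with elements of `G`. -/
theorem SKA_card {G E A : Type} [Group G] [Group E] [Group A]
    (X : Extension G E A) (e : E) (h : G) :
    Nat.card {z : E × G // X.proj z.1 = X.proj e ∧
      z.1 * X.inc z.2 * z.1⁻¹ * (X.inc z.2)⁻¹ = X.inc h} =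
    Nat.card {z : G × G // z.1 * X.act e z.2 * z.1⁻¹ * z.2⁻¹ = h} := by
  symm
  have key : ∀ z : G × G, X.inc (z.1 * X.act e z.2 * z.1⁻¹ * z.2⁻¹) =
      (X.inc z.1 * e) * X.inc z.2 * (X.inc z.1 * e)⁻¹ * (X.inc z.2)⁻¹ := by
    intro z
    rw [map_mul, map_mul, map_mul, map_inv, map_inv, X.act_spec]
    group
  refine Nat.card_congr (Equiv.ofBijective
    (fun z => ⟨(X.inc z.1.1 * e, z.1.2), ?_, ?_⟩) ⟨?_, ?_⟩)
  · have h1 : X.proj (X.inc z.1.1) = 1 := (X.exact _).2 ⟨_, rfl⟩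
    show X.proj (X.inc z.1.1 * e) = X.proj e
    rw [map_mul, h1, one_mul]
  · show (X.inc z.1.1 * e) * X.inc z.1.2 * (X.inc z.1.1 * e)⁻¹ * (X.inc z.1.2)⁻¹ = X.inc h
    rw [← key, z.2]
  · rintro ⟨⟨a, b⟩, hab⟩ ⟨⟨c, d⟩, hcd⟩ hh
    have h1 := congrArg Subtype.val hh
    have h2 : X.inc a * e = X.inc c * e := congrArg Prod.fst h1
    have h3 : b = d := congrArg Prod.snd h1
    have h4 : a = c := X.inc_injective (mul_right_cancel h2)
    subst h3
    subst h4
    rfl
  · rintro ⟨⟨x, y⟩, hx, hy⟩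
    have h1 : X.proj (x * e⁻¹) = 1 := by
      rw [map_mul, map_inv, show X.proj x = X.proj e from hx, mul_inv_cancel]
    obtain ⟨u, hu⟩ := (X.exact _).1 h1
    have h2 : X.inc u * e = x := by rw [hu, inv_mul_cancel_right]
    refine ⟨⟨(u, y), ?_⟩, ?_⟩
    · apply X.inc_injective
      rw [key (u, y)]
      show (X.inc u * e) * X.inc y * (X.inc u * e)⁻¹ * (X.inc y)⁻¹ = X.inc h
      rw [h2]
      exact hy
    · apply Subtype.ext
      exact Prod.ext h2 rfl

/-- The number of pairs is a class function. -/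
theorem SKA_conj {G E A : Type} [Group G] [Group E] [Group A]
    (X : Extension G E A) (e : E) (h y : G) :
    Nat.card {z : E × G // X.proj z.1 = X.proj e ∧
      z.1 * X.inc z.2 * z.1⁻¹ * (X.inc z.2)⁻¹ = X.inc (y * h * y⁻¹)} =
    Nat.card {z : E × G // X.proj z.1 = X.proj e ∧
      z.1 * X.inc z.2 * z.1⁻¹ * (X.inc z.2)⁻¹ = X.inc h} := by
  symm
  have h1 : X.proj (X.inc y) = 1 := (X.exact _).2 ⟨_, rfl⟩
  refine Nat.card_congr (Equiv.subtypeEquiv
    ((MulAut.conj (X.inc y)).toEquiv.prodCongr (MulAut.conj y).toEquiv) ?_)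
  rintro ⟨x, g⟩
  show (X.proj x = X.proj e ∧ x * X.inc g * x⁻¹ * (X.inc g)⁻¹ = X.inc h) ↔
    (X.proj (X.inc y * x * (X.inc y)⁻¹) = X.proj e ∧
      (X.inc y * x * (X.inc y)⁻¹) * X.inc (y * g * y⁻¹) * (X.inc y * x * (X.inc y)⁻¹)⁻¹ *
        (X.inc (y * g * y⁻¹))⁻¹ = X.inc (y * h * y⁻¹))
  have h2 : X.proj (X.inc y * x * (X.inc y)⁻¹) = X.proj x := by
    rw [map_mul, map_mul, map_inv, h1, one_mul, inv_one, mul_one]
  have h3 : (X.inc y * x * (X.inc y)⁻¹) * X.inc (y * g * y⁻¹) * (X.inc y * x * (X.inc y)⁻¹)⁻¹ *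
        (X.inc (y * g * y⁻¹))⁻¹ =
      X.inc y * (x * X.inc g * x⁻¹ * (X.inc g)⁻¹) * (X.inc y)⁻¹ := by
    rw [map_mul, map_mul, map_inv]
    group
  have h4 : X.inc (y * h * y⁻¹) = X.inc y * X.inc h * (X.inc y)⁻¹ := by
    rw [map_mul, map_mul, map_inv]
  rw [h2, h3, h4]
  constructor
  · rintro ⟨a, b⟩
    exact ⟨a, by rw [b]⟩
  · rintro ⟨a, b⟩
    exact ⟨a, mul_left_cancel (mul_right_cancel b)⟩

theorem SKA (hB1 : Pool.Agent.DI.B1_stmt) (hB4 : Pool.Agent.DI.B4_stmt) (hIRT : IRT_stmt) :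
    SKA_stmt := by
  classical
  intro G E A _ _ _ _ _ X e w hw
  refine ⟨⟨?_, ?_⟩, ?_⟩
  · intro x y
    rw [hw, hw, SKA_conj]
  · intro x
    rw [hw]
    have h1 : IsIntegral ℤ (algebraMap ℤ ℂ ((Nat.card {z : E × G // X.proj z.1 = X.proj e ∧
      z.1 * X.inc z.2 * z.1⁻¹ * (X.inc z.2)⁻¹ = X.inc x} : ℕ) : ℤ)) := isIntegral_algebraMap
    simpa using h1
  · intro ψ hψ
    have : Fintype G := Fintype.ofFinite G
    obtain ⟨⟨n, hn0, hn1, -⟩, hcl, -, -⟩ := (hB1 G).2 ψ hψ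
    have hψ1 : ψ 1 ≠ 0 := by
      rw [hn1]
      exact_mod_cast hn0.ne'
    have hψ' : (fun h => ψ (X.act e h)) ∈ Irr G := hIRT G G (X.act e) ψ hψ
    have horth := ((hB1 G).2 _ hψ').2.2.2 ψ hψ
    have hiff : ((fun h => ψ (X.act e h)) = ψ) ↔ funMap (X.act e) ψ = ψ := by
      constructor
      · intro h
        funext g
        have h1 := congrFun h ((X.act e)⁻¹ g)
        have h2 : X.act e ((X.act e)⁻¹ g) = g := MulAut.apply_inv_self _ _ _
        simp only [h2] at h1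
        exact h1.symm
      · intro h
        funext g
        have h1 := congrFun h (X.act e g)
        have h2 : (X.act e)⁻¹ (X.act e g) = g := MulAut.inv_apply_self _ _ _
        unfold funMap at h1
        simp only [h2] at h1
        exact h1.symm
    have hcomm : ∀ a b : G, ψ (a * b) = ψ (b * a) := by
      intro a b
      rw [← hcl (b * a) a]
      congr 1
      group
    have hsum : ∑ h : G, w h * ψ h =
        ∑ y : G, ∑ u : G, ψ (y⁻¹ * (u * X.act e y * u⁻¹)) := by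
      have h1 : ∀ h : G, w h * ψ h =
          ∑ z ∈ Finset.univ.filter (fun z : G × G => z.1 * X.act e z.2 * z.1⁻¹ * z.2⁻¹ = h),
            ψ (z.1 * X.act e z.2 * z.1⁻¹ * z.2⁻¹) := by
        intro h
        rw [hw, SKA_card, Nat.card_eq_fintype_card, Fintype.card_subtype,
          Finset.sum_congr rfl (g := fun _ => ψ h)
            (fun z hz => by rw [(Finset.mem_filter.1 hz).2]),
          Finset.sum_const, nsmul_eq_mul]
      rw [Finset.sum_congr rfl fun h _ => h1 h,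
        Finset.sum_fiberwise (s := (Finset.univ : Finset (G × G)))
          (g := fun z : G × G => z.1 * X.act e z.2 * z.1⁻¹ * z.2⁻¹)
          (f := fun z : G × G => ψ (z.1 * X.act e z.2 * z.1⁻¹ * z.2⁻¹)),
        ← Finset.univ_product_univ, Finset.sum_product_right]
      refine Finset.sum_congr rfl fun y _ => Finset.sum_congr rfl fun u _ => ?_
      rw [hcomm]
    have hmul : ψ 1 * ∑ h : G, w h * ψ h =
        (Nat.card G : ℂ) * ∑ y : G, ψ (X.act e y) * ψ y⁻¹ := by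
      rw [hsum, Finset.mul_sum, Finset.mul_sum]
      refine Finset.sum_congr rfl fun y _ => ?_
      have h1 := hB4 G ψ hψ y⁻¹ (X.act e y)
      rw [finsum_eq_sum_of_fintype] at h1
      rw [h1]
      ring
    rw [finsum_eq_sum_of_fintype] at horth
    have hcc : cc ψ w = (∑ h : G, w h * ψ h) / ψ 1 := by
      unfold cc
      rw [finsum_eq_sum_of_fintype]
    have hs : ∑ h : G, w h * ψ h =
        (Nat.card G : ℂ) * (∑ y : G, ψ (X.act e y) * ψ y⁻¹) / ψ 1 := by
      rw [← hmul]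
      field_simp
    rw [hcc, hs]
    rw [horth]
    by_cases hf : funMap (X.act e) ψ = ψ
    · rw [if_pos hf, if_pos (hiff.2 hf)]
      field_simp
    · rw [if_neg hf, if_neg (fun h => hf (hiff.1 h))]
      simp

end Pool.Agent.WC
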